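import Pool.Agent.Work.MP_d32a8c_gt.Main

/-!
Let `X` be a pseudocompact space such that the square of `X` without the diagonal is discretely
Lindelof. Then `X` is compact and metrizable in each of the following cases: the continuum is at
most `ℵ_ω`; `X` has a dense subset which is the union of fewer than `ℵ_ω` discrete subsets; `X` is
the union of at most `ℵ_ω` closures of discrete subsets; the tightness of `X` is smaller than
`ℵ_ω`; every point of `X` is the intersection of fewer than `ℵ_ω` open sets; `X` has a discrete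
subset of size continuum; every nonempty open set contains a nonempty open set with Lindelof
closure; `X` is countably compact.

Definitions (`Pseudocompact`, `DiscretelyLindelof`, `OffDiagonal`):
`Pool.Agent.Work.MP_d32a8c_gt.Defs`.
-/

namespace Pool.Agent.Results.MP_d32a8c_gt.CompactMetrizable

open Set Topology
open scoped Cardinal
open PoolD32

universe u

theorem result {X : Type u} [TopologicalSpace X] (hX : Pseudocompact X)
    (hY : DiscretelyLindelof (OffDiagonal X))
    (h : Cardinal.continuum.{u} ≤ Cardinal.aleph.{u} Ordinal.omega0 ∨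
      (∃ (Λ : Type u) (E : Λ → Set X), #Λ < Cardinal.aleph.{u} Ordinal.omega0 ∧
        (∀ t, DiscreteTopology (E t)) ∧ Dense (⋃ t, E t)) ∨
      (∃ (Λ : Type u) (E : Λ → Set X), #Λ ≤ Cardinal.aleph.{u} Ordinal.omega0 ∧
        (∀ t, DiscreteTopology (E t)) ∧ (⋃ t, closure (E t)) = univ) ∨
      (∃ c : Cardinal.{u}, c < Cardinal.aleph.{u} Ordinal.omega0 ∧
        ∀ (A : Set X) (x : X), x ∈ closure A → ∃ B ⊆ A, #B ≤ c ∧ x ∈ closure B) ∨
      (∀ p : X, ∃ 𝒪 : Set (Set X), #𝒪 < Cardinal.aleph.{u} Ordinal.omega0 ∧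
        (∀ O ∈ 𝒪, IsOpen O) ∧ ⋂₀ 𝒪 = {p}) ∨
      (∃ E : Set X, DiscreteTopology E ∧ Cardinal.continuum.{u} ≤ #E) ∨
      (∀ W : Set X, IsOpen W → W.Nonempty →
        ∃ V ⊆ W, IsOpen V ∧ V.Nonempty ∧ IsLindelof (closure V)) ∨
      CountablyCompactSpace X) :
    CompactSpace X ∧ TopologicalSpace.MetrizableSpace X :=
  main hX hY h

end Pool.Agent.Results.MP_d32a8c_gt.CompactMetrizable
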